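import Pool.Agent.Q157.SS.Stm

/-! Project SS (helper157), job fin (helper224): the groups. -/

set_option autoImplicit false

namespace Pool.Agent.Q224.SS

open Equiv MulAction Pool.Agent.Q157.SS

theorem image_prim {G : Type} [Group G] {X : Type} [MulAction G X] (hG : IsPreprimitive G X) :
    IsPreprimitive (toPermHom G X).range X := by
  let f : X →ₑ[((toPermHom G X).rangeRestrict : G → (toPermHom G X).range)] X :=
    { toFun := id
      map_smul' := fun m x => rfl }
  exact IsPreprimitive.of_surjective (f := f) (fun x => ⟨x, rfl⟩)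

lemma six_choose (m : ℕ) : 6 * m.choose 3 = (m - 2) * ((m - 1) * m) := by
  have h := Nat.descFactorial_eq_factorial_mul_choose m 3
  have h3 : Nat.factorial 3 = 6 := rfl
  rw [h3] at h
  rw [← h]
  simp [Nat.descFactorial_succ]

theorem fin (h : S_sep) : S_fin := by
  intro C N
  obtain ⟨t0, ht0⟩ := h ⌈C⌉₊
  obtain ⟨t, ht, htN, ht10⟩ : ∃ t, t0 ≤ t ∧ N ≤ t ∧ 10 ≤ t :=
    ⟨t0 + N + 10, by omega, by omega, by omega⟩
  obtain ⟨m, hm⟩ : ∃ m, m = t ^ 2 := ⟨_, rfl⟩
  have hm1 : t ≤ m := by rw [hm]; nlinarith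
  have hm100 : 100 ≤ m := by rw [hm]; nlinarith
  have h6 := six_choose m
  obtain ⟨k, rfl⟩ : ∃ k, m = k + 2 := ⟨m - 2, by omega⟩
  have e1 : k + 2 - 2 = k := by omega
  have e2 : k + 2 - 1 = k + 1 := by omega
  rw [e1, e2] at h6
  have hn1 : (k + 2) + 2 ≤ (k + 2).choose 3 := by
    have : 6 * ((k + 2) + 2) ≤ 6 * (k + 2).choose 3 := by
      rw [h6]
      have h98 : 98 ≤ k := by omega
      have h1 : 98 * (1 * (k + 2)) ≤ k * ((k + 1) * (k + 2)) :=
        Nat.mul_le_mul h98 (Nat.mul_le_mul (by omega) le_rfl)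
      omega
    omega
  have hn2 : (k + 2).choose 3 ≤ t ^ 6 := by
    have h1 : t ^ 6 = (k + 2) ^ 3 := by
      rw [hm]
      ring
    rw [h1]
    have : 6 * (k + 2).choose 3 ≤ (k + 2) ^ 3 := by
      rw [h6]
      nlinarith
    omega
  have hcardΩ : Nat.card (Set.powersetCard (Fin (k + 2)) 3) = (k + 2).choose 3 := by
    rw [Set.powersetCard.card, Nat.card_fin]
  set n := (k + 2).choose 3 with hn
  have hfact : 2 * (k + 2).factorial < n.factorial := by
    have h1 : (k + 2 + 2).factorial ≤ n.factorial := Nat.factorial_le hn1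
    have h2 : (k + 2 + 2).factorial = (k + 2 + 2) * ((k + 2 + 1) * (k + 2).factorial) := by
      rw [Nat.factorial_succ, Nat.factorial_succ]
    have h3 : 0 < (k + 2).factorial := Nat.factorial_pos _
    rw [h2] at h1
    have h4 : 4 * (3 * (k + 2).factorial) ≤ (k + 2 + 2) * ((k + 2 + 1) * (k + 2).factorial) :=
      Nat.mul_le_mul (by omega) (Nat.mul_le_mul (by omega) le_rfl)
    omega
  have hG : Nat.card (toPermHom (Perm (Fin (k + 2))) (Set.powersetCard (Fin (k + 2)) 3)).range ≤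
      (k + 2).factorial := by
    have h1 := Nat.card_le_card_of_surjective
      (toPermHom (Perm (Fin (k + 2))) (Set.powersetCard (Fin (k + 2)) 3)).rangeRestrict
      (MonoidHom.rangeRestrict_surjective _)
    rw [Nat.card_perm, Nat.card_fin] at h1
    exact h1
  refine ⟨Set.powersetCard (Fin (k + 2)) 3, inferInstance, inferInstance,
    (toPermHom (Perm (Fin (k + 2))) (Set.powersetCard (Fin (k + 2)) 3)).range, ?_, ?_, ?_, ?_, ?_⟩
  · rw [hcardΩ]
    omega
  · apply image_prim
    exact Set.powersetCard.isPreprimitive_perm (by norm_num) (by rw [Nat.card_fin]; omega)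
      (by rw [Nat.card_fin]; omega)
  · intro h0
    rw [h0, Subgroup.card_top, Nat.card_perm, hcardΩ] at hG
    omega
  · intro h0
    have hnt : Nontrivial (Set.powersetCard (Fin (k + 2)) 3) := by
      rw [← Finite.one_lt_card_iff_nontrivial, hcardΩ]
      omega
    have h1 := two_mul_nat_card_alternatingGroup (α := Set.powersetCard (Fin (k + 2)) 3)
    rw [Nat.card_perm, hcardΩ] at h1
    rw [h0] at hG
    omega
  · intro A hA
    rw [hcardΩ] at hA
    classical
    set F : Finset (Finset (Fin (k + 2))) := (Set.toFinite A).toFinset.image Subtype.val with hF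
    have hFc : F.card ≤ A.ncard := by
      rw [hF, Set.ncard_eq_toFinset_card A]
      exact Finset.card_image_le
    have hmem : ∀ x : Set.powersetCard (Fin (k + 2)) 3, x ∈ A → x.val ∈ F := by
      intro x hx
      rw [hF, Finset.mem_image]
      exact ⟨x, (Set.Finite.mem_toFinset _).2 hx, rfl⟩
    have hF3 : ∀ f ∈ F, f.card = 3 := by
      intro f hf
      rw [hF, Finset.mem_image] at hf
      obtain ⟨x, _, rfl⟩ := hf
      exact x.prop
    have hFb : F.card ≤ ⌈C⌉₊ * t ^ 3 := by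
      have h1 : (F.card : ℝ) ≤ C * √(n : ℝ) := le_trans (by exact_mod_cast hFc) hA
      have h2 : √(n : ℝ) ≤ (t : ℝ) ^ 3 := by
        apply Real.sqrt_le_iff.2
        refine ⟨by positivity, ?_⟩
        have : (n : ℝ) ≤ (t : ℝ) ^ 6 := by exact_mod_cast hn2
        calc (n : ℝ) ≤ (t : ℝ) ^ 6 := this
          _ = ((t : ℝ) ^ 3) ^ 2 := by ring
      have h3 : (F.card : ℝ) ≤ (⌈C⌉₊ : ℝ) * (t : ℝ) ^ 3 := by
        calc (F.card : ℝ) ≤ C * √(n : ℝ) := h1
          _ ≤ (⌈C⌉₊ : ℝ) * √(n : ℝ) :=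
              mul_le_mul_of_nonneg_right (Nat.le_ceil C) (Real.sqrt_nonneg _)
          _ ≤ _ := mul_le_mul_of_nonneg_left h2 (Nat.cast_nonneg _)
      exact_mod_cast h3
    obtain ⟨g, hg⟩ := ht0 t ht (Fin (k + 2)) F (by rw [Fintype.card_fin, hm]) hF3 hFb
    refine ⟨toPermHom (Perm (Fin (k + 2))) (Set.powersetCard (Fin (k + 2)) 3) g, ⟨g, rfl⟩, ?_⟩
    rw [Set.eq_empty_iff_forall_notMem]
    rintro x ⟨hxA, y, hyA, hxy⟩
    apply hg y.val (hmem y hyA)
    have h1 : y.val.image g = x.val := by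
      rw [← hxy]
      rfl
    rw [h1]
    exact hmem x hxA

end Pool.Agent.Q224.SS
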